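import Pool.Agent.Q29.AB.Stm

set_option autoImplicit false

open Finset Real Filter
open scoped Classical

namespace Pool.Agent.Q261.AB

open Pool.Agent.Q29.AB

theorem t_RATE : S_RATE := by
  intro hR hT ε hε
  obtain ⟨hR0, hR1, hR2, -⟩ := hR
  obtain ⟨t0, ht0⟩ : ∃ t0 : ℕ, ∀ t : ℕ, t0 ≤ t → 16 * ((t : ℝ) ^ 8 / 2 ^ t) ≤ ε := by
    have h1 := (tendsto_pow_const_div_const_pow_of_one_lt 8 (show (1:ℝ) < 2 by norm_num)).const_mul 16
    rw [mul_zero] at h1
    exact eventually_atTop.1 (h1.eventually_le_const hε)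
  obtain ⟨g1, hg1⟩ := exists_nat_ge (1 / (16 * ε ^ 2))
  refine ⟨max (max g1 1) (16 * t0 ^ 8), fun g n hg hn hφ => ?_⟩
  have hg1' : g1 ≤ g := (le_max_left _ _).trans ((le_max_left _ _).trans hg)
  have hg2 : 1 ≤ g := (le_max_right _ _).trans ((le_max_left _ _).trans hg)
  have hg3 : 16 * t0 ^ 8 ≤ g := (le_max_right _ _).trans hg
  obtain ⟨k, hk⟩ := hn
  have hn0 : 0 < n := by
    rcases Nat.eq_zero_or_pos n with rfl | h
    · simp at hφ
    · exact h
  have hk0 : 1 ≤ k := by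
    rcases Nat.eq_zero_or_pos k with rfl | h
    · omega
    · exact h
  have e : 2 * g / n = k := by rw [hk, Nat.mul_div_cancel_left _ hn0]
  rw [e]
  have hgR : (1:ℝ) ≤ g := by exact_mod_cast hg2
  have hkR : (1:ℝ) ≤ k := by exact_mod_cast hk0
  have hnR : (0:ℝ) < n := by exact_mod_cast hn0
  have hkR2 : (2:ℝ) * g = n * k := by exact_mod_cast hk
  have hr0 := (hR0 k).1
  have hr1 := (hR0 k).2
  have hr2 := hR1 k hk0
  have hr3 : rho k ^ 2 * k ≤ 1 := by
    have h1 := hR2 k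
    have h2 := Real.pi_gt_three
    have h3 : 0 ≤ rho k ^ 2 * k := by positivity
    nlinarith
  have hX0 : 0 ≤ (g : ℝ) * rho k ^ Nat.totient n := by positivity
  by_cases hc : n ^ 4 ≤ g
  · have h1 : rho k ^ Nat.totient n ≤ rho k ^ 4 := pow_le_pow_of_le_one hr0.le hr1 hφ
    have h2 : rho k ^ 4 * (k : ℝ) ^ 2 ≤ 1 := by
      have : rho k ^ 4 * (k : ℝ) ^ 2 = (rho k ^ 2 * k) ^ 2 := by ring
      rw [this]
      exact pow_le_one₀ (by positivity) hr3
    have h3 : (g : ℝ) * rho k ^ Nat.totient n * (4 * g) ≤ (n : ℝ) ^ 2 := by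
      calc (g : ℝ) * rho k ^ Nat.totient n * (4 * g) ≤ g * rho k ^ 4 * (4 * g) := by
            refine mul_le_mul_of_nonneg_right (mul_le_mul_of_nonneg_left h1 (by positivity)) (by positivity)
        _ = (n : ℝ) ^ 2 * (rho k ^ 4 * (k : ℝ) ^ 2) := by
            have : (2 * (g:ℝ)) ^ 2 = (n * k) ^ 2 := by rw [hkR2]
            linear_combination (rho k ^ 4) * this
        _ ≤ (n : ℝ) ^ 2 * 1 := mul_le_mul_of_nonneg_left h2 (by positivity)
        _ = _ := by ring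
    have hcR : (n : ℝ) ^ 4 ≤ g := by exact_mod_cast hc
    refine abs_le_of_sq_le_sq' ?_ hε.le |>.2
    have h4 : ((g : ℝ) * rho k ^ Nat.totient n * (4 * g)) ^ 2 ≤ ((n : ℝ) ^ 2) ^ 2 := pow_le_pow_left₀ (by positivity) h3 2
    have h5 : ((g : ℝ) * rho k ^ Nat.totient n) ^ 2 * (16 * g) ≤ 1 := by
      have h6 : ((g : ℝ) * rho k ^ Nat.totient n) ^ 2 * (16 * g) * g ≤ 1 * g := by
        calc ((g : ℝ) * rho k ^ Nat.totient n) ^ 2 * (16 * g) * g =
              ((g : ℝ) * rho k ^ Nat.totient n * (4 * g)) ^ 2 := by ring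
          _ ≤ ((n : ℝ) ^ 2) ^ 2 := h4
          _ = (n : ℝ) ^ 4 := by ring
          _ ≤ 1 * g := by rw [one_mul]; exact hcR
      exact le_of_mul_le_mul_right h6 (by linarith)
    have h7 : 1 ≤ ε ^ 2 * (16 * g) := by
      have h8 : 1 / (16 * ε ^ 2) ≤ (g : ℝ) := hg1.trans (by exact_mod_cast hg1')
      rw [div_le_iff₀ (by positivity)] at h8
      linarith
    have h9 : ((g : ℝ) * rho k ^ Nat.totient n) ^ 2 * (16 * g) ≤ ε ^ 2 * (16 * g) := h5.trans h7
    exact le_of_mul_le_mul_right h9 (by positivity)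
  · push Not at hc
    obtain ⟨t, ht⟩ : ∃ t, t = Nat.totient n := ⟨_, rfl⟩
    rw [← ht]
    have h1 : n ^ 4 ≤ 16 * t ^ 8 := by
      have h2 := hT n
      rw [← ht] at h2
      calc n ^ 4 ≤ (2 * t ^ 2) ^ 4 := Nat.pow_le_pow_left h2 4
        _ = _ := by ring
    have h2 : t0 ≤ t := by
      by_contra h
      push Not at h
      have : t ^ 8 ≤ t0 ^ 8 := Nat.pow_le_pow_left h.le 8
      omega
    have h3 : (g : ℝ) ≤ 16 * (t : ℝ) ^ 8 := by
      have : g ≤ 16 * t ^ 8 := by omega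
      exact_mod_cast this
    calc (g : ℝ) * rho k ^ t ≤ (16 * (t : ℝ) ^ 8) * (1 / 2) ^ t :=
          mul_le_mul h3 (pow_le_pow_left₀ hr0.le hr2 t) (by positivity) (by positivity)
      _ = 16 * ((t : ℝ) ^ 8 / 2 ^ t) := by rw [one_div, inv_pow]; ring
      _ ≤ ε := ht0 t h2

end Pool.Agent.Q261.AB
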