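import Pool.Agent.Q29.AB.Stm

set_option autoImplicit false

open Finset Real
open scoped Classical

namespace Pool.Agent.Q261.AB

open Pool.Agent.Q29.AB

lemma rho_pos (k : ℕ) : 0 < rho k := by
  unfold rho
  have h : 0 < k.choose (k / 2) := Nat.choose_pos (Nat.div_le_self k 2)
  have h' : (0:ℝ) < (k.choose (k / 2) : ℝ) := by exact_mod_cast h
  positivity

lemma rho_even (m : ℕ) : rho (2 * m) = ((2 * m).choose m : ℝ) / 4 ^ m := by
  unfold rho
  rw [show 2 * m / 2 = m by omega, pow_mul]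
  norm_num

lemma rho_odd (m : ℕ) : rho (2 * m + 1) = rho (2 * (m + 1)) := by
  rw [rho_even]
  unfold rho
  rw [show (2 * m + 1) / 2 = m by omega]
  have h : (2 * (m + 1)).choose (m + 1) = 2 * (2 * m + 1).choose m := by
    have h1 := Nat.choose_succ_succ (2 * m + 1) m
    have h2 := Nat.choose_symm_half m
    simp only [Nat.succ_eq_add_one] at h1
    rw [show 2 * (m + 1) = (2 * m + 1) + 1 by ring]
    omega
  rw [h, pow_succ, pow_mul, pow_succ]
  push_cast
  norm_num
  ring

lemma rho_odd_le (m : ℕ) : rho (2 * m + 1) ≤ 1 / 2 := by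
  unfold rho
  rw [show (2 * m + 1) / 2 = m by omega, div_le_div_iff₀ (by positivity) (by norm_num)]
  have h : (((2 * m + 1).choose m : ℕ) : ℝ) ≤ ((4 ^ m : ℕ) : ℝ) := by exact_mod_cast Nat.choose_middle_le_pow m
  rw [pow_succ, pow_mul]
  push_cast at h
  norm_num
  linarith

lemma rho_le_half {k : ℕ} (hk : 1 ≤ k) : rho k ≤ 1 / 2 := by
  rcases Nat.even_or_odd' k with ⟨m, rfl | rfl⟩
  · obtain ⟨l, rfl⟩ : ∃ l, m = l + 1 := ⟨m - 1, by omega⟩
    rw [← rho_odd]
    exact rho_odd_le l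
  · exact rho_odd_le m

lemma rho_sq (m : ℕ) : rho (2 * m) ^ 2 * (π * m) ≤ 1 := by
  have hpi := Real.pi_pos
  have h1 := Real.Wallis.le_W m
  have h2 := Real.Wallis.W_eq_factorial_ratio m
  have hf : (((2 * m).choose m : ℕ) : ℝ) * ((m.factorial : ℝ) ^ 2) = (2 * m).factorial := by
    have := Nat.choose_mul_factorial_mul_factorial (show m ≤ 2 * m by omega)
    rw [show 2 * m - m = m by omega] at this
    have h3 : (((2 * m).choose m : ℕ) : ℝ) * (m.factorial : ℝ) * (m.factorial : ℝ) = (2 * m).factorial := by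
      exact_mod_cast this
    rw [← h3]; ring
  have hm0 : (0:ℝ) < m.factorial := by exact_mod_cast Nat.factorial_pos m
  have hc0 : (0:ℝ) < ((2 * m).choose m : ℕ) := by exact_mod_cast Nat.choose_pos (show m ≤ 2 * m by omega)
  have hW : Real.Wallis.W m * (2 * m + 1) * rho (2 * m) ^ 2 = 1 := by
    rw [h2, rho_even, ← hf]
    have e : (2:ℝ) ^ (4 * m) = (4 ^ m) ^ 2 := by
      rw [← pow_mul, show (4:ℝ) = 2 ^ 2 by norm_num, ← pow_mul]
      congr 1
      ring
    rw [e]
    field_simp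
  have hr : 0 ≤ rho (2 * m) ^ 2 := by positivity
  have h3 : ((2 : ℝ) * m + 1) / (2 * m + 2) * (π / 2) * (2 * m + 1) * rho (2 * m) ^ 2 ≤ 1 := by
    refine le_trans ?_ hW.le
    exact mul_le_mul_of_nonneg_right (mul_le_mul_of_nonneg_right h1 (by positivity)) hr
  have h4 : π * m ≤ ((2 : ℝ) * m + 1) / (2 * m + 2) * (π / 2) * (2 * m + 1) := by
    rw [div_mul_eq_mul_div, div_mul_eq_mul_div, le_div_iff₀ (by positivity)]
    nlinarith
  nlinarith

theorem t_RHO : S_RHO := by
  refine ⟨fun k => ⟨rho_pos k, ?_⟩, fun k hk => rho_le_half hk, fun k => ?_, rho_sq⟩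
  · rcases Nat.eq_zero_or_pos k with rfl | hk
    · unfold rho; simp
    · linarith [rho_le_half hk]
  · have hpi := Real.pi_pos
    rcases Nat.even_or_odd' k with ⟨m, rfl | rfl⟩
    · have := rho_sq m
      push_cast
      nlinarith
    · have h1 := rho_sq (m + 1)
      rw [← rho_odd] at h1
      push_cast at h1 ⊢
      have h2 : 0 ≤ rho (2 * m + 1) ^ 2 := by positivity
      nlinarith [mul_nonneg h2 hpi.le]

end Pool.Agent.Q261.AB
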