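import Pool.Agent.Q29.AB.Stm

set_option autoImplicit false

open Finset Real
open scoped Classical

namespace Pool.Agent.Q261.AB

open Pool.Agent.Q29.AB

lemma tot_aux (n : ℕ) : n ≤ 2 * Nat.totient n ^ 2 ∧ (Odd n → n ≤ Nat.totient n ^ 2) := by
  induction n using Nat.recOnPosPrimePosCoprime with
  | prime_pow p k hp hk =>
    obtain ⟨l, rfl⟩ : ∃ l, k = l + 1 := ⟨k - 1, by omega⟩
    rw [Nat.totient_prime_pow_succ hp]
    have hodd : p ≠ 2 → p ^ (l + 1) ≤ (p ^ l * (p - 1)) ^ 2 := by
      intro h2
      obtain ⟨q, rfl⟩ : ∃ q, p = q + 3 := ⟨p - 3, by have := hp.two_le; omega⟩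
      have h1 : 1 ≤ (q + 3) ^ l := Nat.one_le_pow _ _ (by omega)
      rw [show q + 3 - 1 = q + 2 by omega, pow_succ]
      calc (q + 3) ^ l * (q + 3) ≤ (q + 3) ^ l * ((q + 3) ^ l * (q + 2) ^ 2) := by
            refine Nat.mul_le_mul_left _ ?_
            nlinarith
        _ = _ := by ring
    refine ⟨?_, fun h => hodd ?_⟩
    · by_cases h2 : p = 2
      · subst h2
        have h1 : 1 ≤ 2 ^ l := Nat.one_le_pow _ _ (by omega)
        rw [pow_succ]
        simp only [Nat.add_one_sub_one, mul_one]
        nlinarith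
      · have := hodd h2
        omega
    · rintro rfl
      rw [Nat.odd_pow_iff (by omega)] at h
      exact absurd h (by decide)
  | zero => simp
  | one => simp
  | coprime a b ha hb hab iha ihb =>
    rw [Nat.totient_mul hab, mul_pow]
    constructor
    · rcases Nat.even_or_odd a with h | h
      · have hbo : Odd b := by
          rw [← Nat.not_even_iff_odd]
          intro hbe
          have := Nat.dvd_gcd (even_iff_two_dvd.1 h) (even_iff_two_dvd.1 hbe)
          rw [hab] at this
          omega
        calc a * b ≤ (2 * Nat.totient a ^ 2) * Nat.totient b ^ 2 := Nat.mul_le_mul iha.1 (ihb.2 hbo)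
          _ = _ := by ring
      · calc a * b ≤ Nat.totient a ^ 2 * (2 * Nat.totient b ^ 2) := Nat.mul_le_mul (iha.2 h) ihb.1
          _ = _ := by ring
    · intro h
      rw [Nat.odd_mul] at h
      exact Nat.mul_le_mul (iha.2 h.1) (ihb.2 h.2)

theorem t_TOT : S_TOT := fun n => (tot_aux n).1

end Pool.Agent.Q261.AB
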